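import Pool.Agent.Work.MP_cb6225_lc.Green

/-! A graded form of the induction over two-sided ideals: replacements of bounded size, with a
bounded reserve of length. -/

namespace Pool.Agent.Work.MP_cb6225_lc.Z

open List Pool.Agent.Work.MP_cb6225_lc

variable {α : Type} {M : Type} [Monoid M] [Finite M] {μ : List α → M} {c k : ℕ}
  {P : List α → ℕ → Prop}

/-- one of `c` replacements of short consecutive factors keeps `P`, given the reserve `N` -/
def GM {M : Type} (P : List α → ℕ → Prop) (μ : List α → M) (c g N : ℕ) : Prop :=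
  ∀ w n, w.length + N ≤ n → P w n → ∀ pre v suf v' : ℕ → List α,
    (∀ t < c, w = pre t ++ v t ++ suf t ∧ pre (t + 1) = pre t ++ v t ∧ μ (v' t) = μ (v t) ∧
      (v t).length ≤ g ∧ (v' t).length ≤ g) → ∃ t < c, P (pre t ++ v' t ++ suf t) n

/-- the graded syntactic preorder -/
def GLe (P : List α → ℕ → Prop) (N : ℕ) (u v : List α) : Prop :=
  ∀ x y n, (x ++ u ++ y).length + N ≤ n → (x ++ v ++ y).length + N ≤ n → P (x ++ u ++ y) n →
    P (x ++ v ++ y) n

/-- `v` is equivalent to `u` and not longer -/
def Red (P : List α → ℕ → Prop) (N : ℕ) (u v : List α) : Prop :=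
  v.length ≤ u.length ∧ GLe P N u v ∧ GLe P N v u

theorem GLe.mono {N N' : ℕ} {u v : List α} (h : GLe P N u v) (k : N ≤ N') : GLe P N' u v :=
  fun x y n a b => h x y n (by omega) (by omega)

theorem GLe.trans {N : ℕ} {u v w : List α} (h : GLe P N u v) (k : GLe P N v w)
    (j : v.length ≤ u.length ∨ v.length ≤ w.length) : GLe P N u w := fun x y n a b i => by
  have : (x ++ v ++ y).length + N ≤ n := by
    simp only [length_append] at a b ⊢
    omega
  exact k x y n this b (h x y n a this i)

theorem GLe.ctx {N : ℕ} {u v : List α} (h : GLe P N u v) (p q : List α) :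
    GLe P N (p ++ u ++ q) (p ++ v ++ q) := fun x y n a b i => by
  have := h (x ++ p) (q ++ y) n (by simpa only [append_assoc] using a)
    (by simpa only [append_assoc] using b) (by simpa only [append_assoc] using i)
  simpa only [append_assoc] using this

theorem Red.refl (N : ℕ) (u : List α) : Red P N u u :=
  ⟨le_rfl, fun _ _ _ _ _ i => i, fun _ _ _ _ _ i => i⟩

theorem Red.mono {N N' : ℕ} {u v : List α} (h : Red P N u v) (k : N ≤ N') : Red P N' u v :=
  ⟨h.1, h.2.1.mono k, h.2.2.mono k⟩

theorem Red.trans {N : ℕ} {u v w : List α} (h : Red P N u v) (k : Red P N v w) : Red P N u w :=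
  ⟨k.1.trans h.1, h.2.1.trans k.2.1 (Or.inl h.1), k.2.2.trans h.2.2 (Or.inr h.1)⟩

theorem Red.ctx {N : ℕ} {u v : List α} (h : Red P N u v) (p q : List α) :
    Red P N (p ++ u ++ q) (p ++ v ++ q) :=
  ⟨by have := h.1; simp only [length_append]; omega, h.2.1.ctx p q, h.2.2.ctx p q⟩

theorem flat_len {b : ℕ} {U : List (List α)} (h : ∀ f ∈ U, f.length ≤ b) :
    U.flatten.length ≤ U.length * b := by
  induction U with
  | nil => simp
  | cons f U ih =>
    have h1 := h f mem_cons_self
    have h2 := ih fun g hg => h g (mem_cons_of_mem _ hg)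
    rw [flatten_cons, length_append, length_cons, Nat.succ_mul]
    omega

theorem ginsert (hμ : Hom μ) {g N : ℕ} (h : GM P μ c g N) (Q F H Q' R : List (List α))
    (hF : F.length = c) (hk : ∀ f ∈ F, nu (μ f) ≤ k) (hP : k ≤ nu (μ (Q ++ F).flatten))
    (hg : ∀ f ∈ F, H.flatten.length + f.length ≤ g)
    (e : Q ++ F ++ H = Q' ++ F) (e' : μ (Q ++ F ++ H).flatten = μ (Q ++ F).flatten) :
    GLe P N (Q ++ F ++ R).flatten (Q ++ F ++ H ++ R).flatten := fun x y n hn _ hw => by
  have k1 : ∀ t, ∃ G : List (List α), F.drop t ++ H = G ++ F.drop t := fun t => by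
    have a1 : F.drop t <:+ Q ++ F ++ H := e ▸ (drop_suffix _ _).trans (suffix_append _ _)
    have a2 : F.drop t ++ H <:+ Q ++ F ++ H :=
      ⟨Q ++ F.take t, by rw [← append_assoc, append_assoc Q, take_append_drop]⟩
    obtain ⟨G, hG⟩ := suffix_of_suffix_length_le a1 a2 (by simp)
    exact ⟨G, hG.symm⟩
  choose G hG using k1
  have hGl : ∀ t, (G t).flatten.length = H.flatten.length := fun t => by
    have := congrArg (fun l => l.flatten.length) (hG t)
    simp only [flatten_append, length_append] at this
    omega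
  obtain ⟨t, ht, j⟩ := h _ n hn hw (fun t => x ++ (Q ++ F.take t).flatten)
    (fun t => F[t]?.toList.flatten) (fun t => (F.drop (t + 1) ++ R).flatten ++ y)
    (fun t => (G t ++ F[t]?.toList).flatten) fun t ht => by
      have ht' : t < F.length := hF ▸ ht
      have d := drop_eq_getElem_cons ht'
      have hf : F = F.take t ++ F[t] :: F.drop (t + 1) := by rw [← d, take_append_drop]
      have hf' : F.flatten = (F.take t).flatten ++ (F[t] ++ (F.drop (t + 1)).flatten) :=
        (congrArg flatten hf).trans (by rw [flatten_append, flatten_cons])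
      have hgt := hg _ (getElem_mem ht')
      have hGt := hGl t
      refine ⟨?_, by simp only [take_add_one, flatten_append, append_assoc], ?_, ?_, ?_⟩
      · simp only [getElem?_eq_getElem ht', Option.toList_some, flatten_append, flatten_cons,
          flatten_nil, append_nil, append_assoc, hf']
      rotate_left
      · simp only [getElem?_eq_getElem ht', Option.toList_some, flatten_cons, flatten_nil,
          append_nil]
        omega
      · simp only [getElem?_eq_getElem ht', Option.toList_some, flatten_append, flatten_cons,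
          flatten_nil, append_nil, length_append]
        omega
      have g := hG t
      rw [d] at g
      simp only [getElem?_eq_getElem ht', Option.toList_some, flatten_append, flatten_cons,
        flatten_nil, append_nil]
      have q1 : μ (Q ++ F).flatten =
          μ (Q ++ F.take t).flatten * μ F[t] * μ (F.drop (t + 1)).flatten := by
        rw [← hμ, ← hμ]
        simp only [flatten_append, append_assoc, hf']
      refine green (q := μ (Q ++ F.take t).flatten) (s := μ (F.drop (t + 1)).flatten)
        (q1 ▸ (hk _ (getElem_mem _)).trans hP) ?_ ?_ ⟨_, hμ _ _⟩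
      · rw [← q1, ← e', ← hμ, ← hμ]
        have g' := congrArg flatten g
        simp only [flatten_append, flatten_cons, append_assoc] at g'
        simp only [flatten_append, append_assoc, hf', g']
      · rcases hg : G t with _ | ⟨f, G'⟩
        · exact ⟨1, by simp⟩
        · rw [hg, cons_append, cons_append, cons.injEq] at g
          exact ⟨_, by rw [flatten_cons, ← g.1, append_assoc, hμ]⟩
  have ht' : t < F.length := hF ▸ ht
  have g := hG t
  have d := drop_eq_getElem_cons ht'
  have : Q ++ F ++ H ++ R = Q ++ F.take t ++ (G t ++ [F[t]]) ++ (F.drop (t + 1) ++ R) := by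
    conv_lhs => rw [← take_append_drop t F, append_assoc Q, append_assoc (F.take t), g, d]
    simp only [append_assoc, cons_append, nil_append]
  rw [this]
  simpa only [getElem?_eq_getElem ht', Option.toList_some, flatten_append, append_assoc] using j

theorem gshorten (hμ : Hom μ) (h : ∀ g, ∃ N, GM P μ c g N) {A : Set (List α)} (hA : A.Finite)
    {b : ℕ} (hb : ∀ f ∈ A, f.length ≤ b) (hk : ∀ f ∈ A, nu (μ f) ≤ k) :
    ∃ K N, ∀ U : List (List α), (∀ f ∈ U, f ∈ A) → k ≤ nu (μ U.flatten) → K < U.length →
      ∀ x y m, (x ++ U.flatten ++ y).length + N ≤ m → P (x ++ U.flatten ++ y) m →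
        ∃ U₀ : List (List α), (∀ f ∈ U₀, f ∈ A) ∧
        k ≤ nu (μ U₀.flatten) ∧ U₀.length < U.length ∧ U₀.flatten.length ≤ U.flatten.length ∧
        GLe P N U₀.flatten U.flatten ∧ P (x ++ U₀.flatten ++ y) m := by
  have hS : {F : List (List α) | F.length ≤ c ∧ ∀ f ∈ F, f ∈ A}.Finite := by
    have := hA.to_subtype
    refine ((finite_length_le A c).image (map Subtype.val)).subset ?_
    rintro F ⟨a, b⟩
    lift F to List A using b
    exact ⟨F, by simpa using a, rfl⟩
  have hT := (Set.finite_univ (α := M × M)).prod hS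
  set n := (Set.univ ×ˢ {F : List (List α) | F.length ≤ c ∧ ∀ f ∈ F, f ∈ A} :
    Set ((M × M) × List (List α))).ncard with hn
  obtain ⟨N, h⟩ := h (n * b + b)
  refine ⟨c + c * n, N, fun U hU hU' hl x y m hm0 hw => ?_⟩
  have k1 : ∀ t, ∃ B H B' : List (List α), t < c → (U.drop (c + t * n)).take n = B ++ H ++ B' ∧
      H ≠ [] ∧ μ (B ++ H).flatten = μ B.flatten ∧
      μ (U.take (c + t * n) ++ (B ++ H)).flatten = μ (U.take (c + t * n) ++ B).flatten ∧
      (U.take (c + t * n) ++ (B ++ H)).rtake c = (U.take (c + t * n) ++ B).rtake c := fun t => by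
    by_cases ht : t < c
    · obtain ⟨B, H, B', a1, a2, a3⟩ := cycle hT (fun B => ((μ B.flatten,
        μ (U.take (c + t * n) ++ B).flatten), (U.take (c + t * n) ++ B).rtake c))
        ((U.drop (c + t * n)).take n)
        (by
          have : t * n + n ≤ c * n := by nlinarith
          rw [length_take, length_drop]; omega)
        fun P hP => ⟨trivial, by simp [rtake]; omega, fun f hf => by
          rcases mem_append.1 (mem_of_mem_drop hf) with j | j
          · exact hU f (mem_of_mem_take j)
          · exact hU f (mem_of_mem_drop (mem_of_mem_take (hP.subset j)))⟩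
      simp only [Prod.mk.injEq] at a3
      exact ⟨B, H, B', fun _ => ⟨a1, a2, a3.1.1, a3.1.2, a3.2⟩⟩
    · exact ⟨[], [], [], fun j => absurd j ht⟩
  choose B H B' k1 using k1
  have dec : ∀ t, U = U.take (c + t * n) ++ (U.drop (c + t * n)).take n ++
      U.drop (c + (t + 1) * n) := fun t => by
    rw [Nat.succ_mul, ← Nat.add_assoc, ← drop_drop (i := n), append_assoc, take_append_drop,
      take_append_drop]
  have lb : ∀ t, ((U.drop (c + t * n)).take n).flatten.length ≤ n * b := fun t =>
    (flat_len fun f hf => hb f (hU f (mem_of_mem_drop (mem_of_mem_take hf)))).trans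
      (Nat.mul_le_mul_right _ (length_take_le _ _))
  have lb' : ∀ t < c, (B t).flatten.length + (H t).flatten.length + (B' t).flatten.length ≤ n * b :=
    fun t ht => by
      have := lb t
      rwa [(k1 t ht).1, flatten_append, flatten_append, length_append, length_append] at this
  obtain ⟨t, ht, j⟩ := h _ m hm0 hw (fun t => x ++ (U.take (c + t * n)).flatten)
    (fun t => ((U.drop (c + t * n)).take n).flatten)
    (fun t => (U.drop (c + (t + 1) * n)).flatten ++ y)
    (fun t => (B t ++ B' t).flatten) fun t ht => by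
      refine ⟨?_, ?_, ?_, (lb t).trans (Nat.le_add_right _ _), ?_⟩
      · conv_lhs => rw [dec t]
        simp only [flatten_append, append_assoc]
      · simp only [Nat.succ_mul, ← Nat.add_assoc, take_add, flatten_append, append_assoc]
      · rw [(k1 t ht).1, flatten_append, flatten_append (L₁ := B t ++ H t), hμ, hμ,
          (k1 t ht).2.2.1]
      · have := lb' t ht
        rw [flatten_append, length_append]
        omega
  obtain ⟨a1, a2, -, a4, a5⟩ := k1 t ht
  have e := dec t
  rw [a1] at e
  set Q := U.take (c + t * n) with hQ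
  set R := U.drop (c + (t + 1) * n)
  have hQl : c ≤ Q.length := by rw [hQ, length_take]; omega
  have e' : U = Q ++ B t ++ H t ++ (B' t ++ R) := by rw [e]; simp only [append_assoc]
  have hm : μ (Q ++ B t ++ (B' t ++ R)).flatten = μ U.flatten := by
    rw [e', flatten_append, flatten_append (L₁ := Q ++ B t ++ H t), hμ, hμ, append_assoc Q, a4]
  have sub : ∀ f ∈ Q ++ B t ++ (B' t ++ R), f ∈ A := fun f hf => hU f (by
    rw [e']; simp only [mem_append] at hf ⊢; tauto)
  refine ⟨Q ++ B t ++ (B' t ++ R), sub, hm ▸ hU', ?_, ?_, ?_,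
    by simpa only [flatten_append, append_assoc] using j⟩
  · have := length_pos_of_ne_nil a2
    rw [e']
    simp only [length_append]
    omega
  · have := congrArg (fun l => l.flatten.length) e'
    simp only [flatten_append, length_append] at this ⊢
    omega
  · have s1 : (Q ++ B t).rdrop c ++ (Q ++ B t).rtake c = Q ++ B t := take_append_drop _ _
    have s2 : (Q ++ (B t ++ H t)).rdrop c ++ (Q ++ (B t ++ H t)).rtake c = Q ++ (B t ++ H t) :=
      take_append_drop _ _
    have := ginsert (k := k) hμ h ((Q ++ B t).rdrop c) ((Q ++ B t).rtake c) (H t)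
      ((Q ++ (B t ++ H t)).rdrop c) (B' t ++ R) (by simp [rtake]; omega)
      (fun f hf => hk f (sub f (mem_append_left _ (mem_of_mem_drop hf))))
      (by
        rw [s1]
        refine hU'.trans (nu_infix hμ ⟨[], (H t ++ (B' t ++ R)).flatten, ?_⟩)
        rw [e']; simp)
      (fun f hf => by
        have := hb f (sub f (mem_append_left _ (mem_of_mem_drop hf)))
        have := lb' t ht
        omega)
      (by rw [s1, ← a5, s2, append_assoc]) (by rw [s1, append_assoc, a4])
    rwa [s1, ← e'] at this

theorem glevel [Finite α] (hμ : Hom μ) (h : ∀ g, ∃ N, GM P μ c g N) {l N : ℕ}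
    (hl : ∀ w, k + 1 ≤ nu (μ w) → ∃ w', w'.length ≤ l ∧ Red P N w w' ∧ μ w = μ w') :
    ∃ l N, ∀ w, k ≤ nu (μ w) → ∃ w', w'.length ≤ l ∧ Red P N w w' ∧ μ w = μ w' := by
  set A : Set (List α) := {f | f.length ≤ l + 1 ∧ nu (μ f) ≤ k}
  have hA : A.Finite := (finite_length_le α (l + 1)).subset fun _ h => h.1
  obtain ⟨K, N₂, hK⟩ := gshorten hμ h hA (b := l + 1) (fun f hf => hf.1) fun f hf => hf.2
  have fac : ∀ w, ∃ (U : List (List α)) (r : List α), (∀ f ∈ U, f ∈ A) ∧ r.length ≤ l ∧
      Red P N w (U.flatten ++ r) ∧ μ w = μ (U.flatten ++ r) := fun w => by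
    induction w using reverseRecOn with
    | nil => exact ⟨[], [], by simp, by simp, Red.refl _ _, rfl⟩
    | append_singleton w x ih =>
      obtain ⟨U, r, a1, a2, a3, a4⟩ := ih
      have b3 := a3.ctx [] [x]
      rw [nil_append, nil_append] at b3
      have b4 : μ (w ++ [x]) = μ (U.flatten ++ r ++ [x]) := by rw [hμ, a4, ← hμ]
      by_cases j : nu (μ (r ++ [x])) ≤ k
      · refine ⟨U ++ [r ++ [x]], [], fun f hf => ?_, by simp, by simpa using b3, by simpa using b4⟩
        rcases mem_append.1 hf with hf | hf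
        · exact a1 f hf
        · rw [mem_singleton.1 hf]; exact ⟨by simpa using a2, j⟩
      · obtain ⟨r', c1, c2, c3⟩ := hl _ (not_le.1 j)
        rw [append_assoc] at b3 b4
        have c4 := c2.ctx U.flatten []
        rw [append_nil, append_nil] at c4
        exact ⟨U, r', a1, c1, b3.trans c4, by rw [b4, hμ, c3, hμ]⟩
  have short : ∀ U : List (List α), (∀ f ∈ U, f ∈ A) → k ≤ nu (μ U.flatten) →
      ∀ x y m, (x ++ U.flatten ++ y).length + N₂ ≤ m → P (x ++ U.flatten ++ y) m →
        ∃ u : List α, u.length ≤ K * (l + 1) ∧ u.length ≤ U.flatten.length ∧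
        GLe P N₂ u U.flatten ∧ P (x ++ u ++ y) m := fun U a1 a2 x y m a0 a3 => by
    induction hn : U.length using Nat.strong_induction_on generalizing U with
    | _ n ih =>
      by_cases j : K < U.length
      · obtain ⟨V, b1, b2, b3, b0, b4, b5⟩ := hK U a1 a2 j x y m a0 a3
        obtain ⟨u, c1, c0, c2, c3⟩ := ih _ (hn ▸ b3) V b1 b2 (by
          simp only [length_append] at a0 ⊢
          omega) b5 rfl
        exact ⟨u, c1, c0.trans b0, c2.trans b4 (Or.inr b0), c3⟩
      · exact ⟨U.flatten, (flat_len fun f hf => (a1 f hf).1).trans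
          (Nat.mul_le_mul_right _ (not_lt.1 j)), le_rfl, fun _ _ _ _ _ i => i, a3⟩
  obtain ⟨l', hl'⟩ := reps {U : List (List α) | (∀ f ∈ U, f ∈ A) ∧ k ≤ nu (μ U.flatten)}
    (fun U => ({u : List α | u.length ≤ K * (l + 1) ∧ GLe P N₂ u U.flatten}, μ U.flatten))
    (((finite_length_le α (K * (l + 1))).finite_subsets.prod Set.finite_univ).subset (by
      rintro _ ⟨U, -, rfl⟩
      exact ⟨fun u hu => hu.1, trivial⟩)) fun U => U.flatten.length
  refine ⟨l' + l, N + N₂, fun w hw => ?_⟩
  obtain ⟨U, r, a1, a2, a3, a4⟩ := fac w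
  by_cases hs : U.flatten.length ≤ l'
  · exact ⟨U.flatten ++ r, by rw [length_append]; omega, a3.mono (by omega), a4⟩
  have a5 : k ≤ nu (μ U.flatten) :=
    hw.trans (a4 ▸ nu_infix hμ (prefix_append _ _).isInfix)
  obtain ⟨V, ⟨b1, b2⟩, b3, b4⟩ := hl' U ⟨a1, a5⟩
  rw [Prod.mk.injEq, Set.ext_iff] at b4
  have : Red P N₂ U.flatten V.flatten := by
    refine ⟨by omega, fun x y m i1 i2 i => ?_, fun x y m i1 i2 i => ?_⟩
    · obtain ⟨u, c1, c0, c2, c3⟩ := short U a1 a5 x y m i1 i
      refine ((b4.1 u).2 ⟨c1, c2⟩).2 x y m ?_ i2 c3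
      simp only [length_append] at i1 ⊢
      omega
    · obtain ⟨u, c1, c0, c2, c3⟩ := short V b1 b2 x y m i1 i
      refine ((b4.1 u).1 ⟨c1, c2⟩).2 x y m ?_ i2 c3
      simp only [length_append] at i1 ⊢
      omega
  have c4 := (this.ctx [] r).mono (Nat.le_add_left _ N)
  rw [nil_append, nil_append] at c4
  exact ⟨V.flatten ++ r, by rw [length_append]; omega, (a3.mono (by omega)).trans c4,
    by rw [a4, hμ, hμ, b4.2]⟩

theorem gfin [Finite α] (hμ : Hom μ) (h : ∀ g, ∃ N, GM P μ c g N) :
    ∃ l N, ∀ w, ∃ w', w'.length ≤ l ∧ Red P N w w' := by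
  have key : ∀ d k, Nat.card M < k + d →
      ∃ l N, ∀ w, k ≤ nu (μ w) → ∃ w', w'.length ≤ l ∧ Red P N w w' ∧ μ w = μ w' := fun d => by
    induction d with
    | zero =>
      refine fun k hk => ⟨0, 0, fun w hw => ?_⟩
      have : nu (μ w) ≤ Nat.card M := Set.ncard_le_card _
      omega
    | succ d ih =>
      intro k hk
      obtain ⟨l, N, hl⟩ := ih (k + 1) (by omega)
      exact glevel hμ h hl
  obtain ⟨l, N, hl⟩ := key (Nat.card M + 1) 0 (by omega)
  refine ⟨l, N, fun w => ?_⟩
  obtain ⟨w', a1, a2, -⟩ := hl w (Nat.zero_le _)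
  exact ⟨w', a1, a2⟩

end Pool.Agent.Work.MP_cb6225_lc.Z
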