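import Pool.Agent.Work.MP_cb6225_lc.Z.Core
import Pool.Agent.Work.MP_cb6225_lc.Z.GGreen

/-! With a central word, bounded replacements need only boundedly many copies of the word. -/

namespace Pool.Agent.Work.MP_cb6225_lc.Z

open List Pool.Agent.Work.MP_cb6225_lc

variable {α : Type} {L : Language α} {z : List α}

/-- `u` is `v` with `j` copies of `z` added -/
def Cz (L : Language α) (z u v : List α) (j : ℕ) : Prop :=
  Syn L u (v ++ pw z j) ∧ u.length = v.length + z.length * j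

/-- `w`, filled up to the length `n` by copies of `z`, is in `L` -/
def PZ (L : Language α) (z w : List α) (n : ℕ) : Prop :=
  ∃ k, w.length + z.length * k = n ∧ w ++ pw z k ∈ L

theorem pw_add (z : List α) (m n : ℕ) : pw z (m + n) = pw z m ++ pw z n := by
  induction m with
  | zero => simp [pw]
  | succ m ih => rw [Nat.add_right_comm, pw, pw, ih, append_assoc]

theorem pw_run (a : α) (D d : ℕ) : pw (replicate D a) d = replicate (D * d) a := by
  induction d with
  | zero => simp [pw]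
  | succ d ih => rw [pw, ih, ← replicate_add, Nat.mul_succ, Nat.add_comm]

theorem cpw (hc : ∀ u, Syn L (z ++ u) (u ++ z)) (n : ℕ) (u : List α) :
    Syn L (pw z n ++ u) (u ++ pw z n) := by
  induction n with
  | zero => simpa [pw] using Syn.refl u
  | succ n ih =>
    have h1 := (Syn.refl (L := L) z).app ih
    have h2 := (hc u).app (Syn.refl (pw z n))
    rw [pw]
    simp only [append_assoc] at h1 h2 ⊢
    exact h1.trans h2

theorem Cz.refl (u : List α) : Cz L z u u 0 := ⟨by simpa [pw] using Syn.refl u, by simp⟩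

theorem Cz.cast {u v : List α} {j j' : ℕ} (h : Cz L z u v j) (e : j = j') : Cz L z u v j' := e ▸ h

theorem Cz.app (hc : ∀ u, Syn L (z ++ u) (u ++ z)) {u v u' v' : List α} {j j' : ℕ}
    (h : Cz L z u v j) (k : Cz L z u' v' j') : Cz L z (u ++ u') (v ++ v') (j + j') := by
  refine ⟨(h.1.app k.1).trans ?_, by rw [length_append, length_append, h.2, k.2]; ring⟩
  have := ((Syn.refl (L := L) v).app (cpw hc j v')).app (Syn.refl (pw z j'))
  rw [pw_add]
  simpa only [append_assoc] using this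

theorem Cz.trans {u v w : List α} {j j' : ℕ} (h : Cz L z u v j) (k : Cz L z v w j') :
    Cz L z u w (j' + j) := by
  refine ⟨h.1.trans ?_, by rw [h.2, k.2]; ring⟩
  rw [pw_add, ← append_assoc]
  exact k.1.app (Syn.refl _)

theorem cz_pw (n : ℕ) : Cz L z (pw z n) [] n := ⟨Syn.refl _, by simp [pw_len]⟩

theorem cz_one : Cz L z z [] 1 := by simpa [pw] using cz_pw (L := L) (z := z) 1

theorem cz_nest {a : α} {i : ℕ} {y : List α}
    (hc : ∀ u, Syn L (replicate i a ++ y ++ u) (u ++ (replicate i a ++ y))) (n : ℕ) :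
    Cz L (replicate i a ++ y) (replicate (i * n) a ++ pw y n) [] n := by
  induction n with
  | zero => simpa [pw] using Cz.refl (L := L) (z := replicate i a ++ y) []
  | succ n ih =>
    have := ((Cz.refl (replicate i a)).app hc ih).app hc (Cz.refl y)
    rw [append_nil, ← append_assoc, ← replicate_add, append_assoc, ← pw_succ'] at this
    rw [Nat.mul_succ, Nat.add_comm (i * n)]
    exact (this.trans cz_one).cast (by omega)

theorem cz_seg (hc : ∀ u, Syn L (z ++ u) (u ++ z)) {A B : ℕ → List α} {J : ℕ → ℕ}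
    (h : ∀ k, Cz L z (A k) (B k) (J k)) (i n : ℕ) :
    Cz L z (seg A i n) (seg B i n) (∑ k ∈ Finset.range n, J (i + k)) := by
  induction n with
  | zero => exact Cz.refl _
  | succ n ih =>
    rw [seg_succ, seg_succ, Finset.sum_range_succ]
    exact ih.app hc (h _)

theorem reduce (hc : ∀ u, Syn L (z ++ u) (u ++ z)) (hz : z ≠ []) (X : List α) :
    ∃ Y j, ¬ z <:+: Y ∧ Cz L z X Y j := by
  induction hn : X.length using Nat.strong_induction_on generalizing X with
  | _ n ih =>
    by_cases j : z <:+: X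
    · obtain ⟨p, q, rfl⟩ := j
      have := length_pos_of_ne_nil hz
      obtain ⟨Y, j, h1, h2⟩ := ih (p ++ [] ++ q).length (by rw [← hn]; simp; omega) _ rfl
      exact ⟨Y, _, h1, (((Cz.refl p).app hc cz_one).app hc (Cz.refl q)).trans h2⟩
    · exact ⟨X, 0, j, Cz.refl _⟩

theorem pz_of (hz : z ≠ []) {A A' B : List α} {j j' : ℕ} (h : Cz L z A B j) (h' : Cz L z A' B j')
    (hA : A ∈ L) (hl : A'.length ≤ A.length) : PZ L z A' A.length := by
  have : j' ≤ j := by
    rw [h.2, h'.2, Nat.add_le_add_iff_left] at hl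
    exact Nat.le_of_mul_le_mul_left hl (length_pos_of_ne_nil hz)
  obtain ⟨d, rfl⟩ := Nat.exists_eq_add_of_le this
  refine ⟨d, by rw [h.2, h'.2]; ring, ?_⟩
  have := h.1.mem hA
  rw [pw_add, ← append_assoc] at this
  exact (h'.1.app (Syn.refl _)).symm.mem this

theorem pad_le {D m n g : ℕ} (hD : 0 < D) (h : m ≡ n [MOD D]) (hm : m ≤ g) (hn : n ≤ g) :
    ∃ j j', j ≤ g ∧ m + D * (j + 1) = n + D * (j' + 1) := by
  rcases le_total m n with k | k
  · obtain ⟨d, hd⟩ := (Nat.modEq_iff_dvd' k).1 h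
    have := Nat.le_mul_of_pos_left d hD
    exact ⟨d, 0, by omega, by rw [Nat.mul_succ, ← hd]; omega⟩
  · obtain ⟨d, hd⟩ := (Nat.modEq_iff_dvd' k).1 h.symm
    exact ⟨0, d, by omega, by rw [Nat.mul_succ D d, ← hd]; omega⟩

theorem run_split {a : α} {D m n : ℕ} (h : m ≡ n [MOD D]) :
    ∃ u d d', replicate m a = u ++ pw (replicate D a) d ∧
      replicate n a = u ++ pw (replicate D a) d' := by
  rcases le_total m n with k | k
  · obtain ⟨d, hd⟩ := (Nat.modEq_iff_dvd' k).1 h
    exact ⟨replicate m a, 0, d, by simp [pw], by rw [pw_run, ← replicate_add, ← hd]; congr 1; omega⟩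
  · obtain ⟨d, hd⟩ := (Nat.modEq_iff_dvd' k).1 h.symm
    exact ⟨replicate n a, d, 0, by rw [pw_run, ← replicate_add, ← hd]; congr 1; omega, by simp [pw]⟩

theorem gm_of_central {Λ : Set (Set (ℕ → ℕ))} (h : Expressible Λ L) (hz0 : z ≠ [])
    (hc : ∀ u, Syn L (z ++ u) (u ++ z)) :
    ∃ (M : Type) (_ : Monoid M) (_ : Finite M) (μ : List α → M) (c : ℕ), Hom μ ∧
      ∀ g, ∃ N, GM (PZ L z) μ c g N := by
  classical
  obtain ⟨M, _, _, μ, C, hμ, h⟩ := sw_of_expr h
  obtain ⟨a, z', rfl⟩ := exists_cons_of_ne_nil hz0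
  obtain ⟨i, y₀, rfl, hy⟩ := first_ne (a := a) z'
  rw [← cons_append, ← replicate_succ] at hc hz0 ⊢
  set z := replicate (i + 1) a ++ y₀ with hzd
  obtain ⟨p, hp, hp'⟩ := pow_idem (μ z)
  have hD := length_pos_of_ne_nil hz0
  have : NeZero (z.length * p) := ⟨(Nat.mul_pos hD hp).ne'⟩
  refine ⟨M × Multiplicative (ZMod (z.length * p)) × ZMod 2, inferInstance, inferInstance,
    fun w => (μ w, Multiplicative.ofAdd (w.length : ZMod (z.length * p)),
      if ∀ b ∈ w, b = a then 1 else 0), 2 * (C + 2 + 1) + 1, fun u v => ?_, fun g => ?_⟩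
  · refine Prod.ext (hμ u v) (Prod.ext (by simp) ?_)
    simp only [Prod.snd_mul, forall_mem_append]
    by_cases h1 : ∀ b ∈ u, b = a
    · by_cases h2 : ∀ b ∈ v, b = a
      · rw [if_pos ⟨h1, h2⟩, if_pos h1, if_pos h2, one_mul]
      · rw [if_neg fun j => h2 j.2, if_neg h2, mul_zero]
    · rw [if_neg fun j => h1 j.1, if_neg h1, zero_mul]
  obtain ⟨N₀, hN₀⟩ : ∃ N₀, N₀ = 2 * z.length + 2 * g + z.length * p * (g + 1) + 1 := ⟨_, rfl⟩
  obtain ⟨Jb, hJb⟩ : ∃ Jb, Jb = 1 + (C + 2 + 1) * (2 * N₀ * (C + 2 + 1) + p * (g + 1) + 1) :=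
    ⟨_, rfl⟩
  refine ⟨z.length * Jb + g, fun w n hn ⟨κ, hκ, hw⟩ pre v suf v' k => ?_⟩
  have hκ' : Jb ≤ κ := Nat.le_of_mul_le_mul_left (by omega) hD
  have hwl : (w ++ pw z κ).length = n := by rw [length_append, pw_len, hκ]
  have k1 : ∀ t < 2 * (C + 2 + 1) + 1, μ (v' t) = μ (v t) ∧
      (v' t).length ≡ (v t).length [MOD z.length * p] := fun t ht =>
    ⟨congrArg Prod.fst (k t ht).2.2.1, (ZMod.natCast_eq_natCast_iff _ _ _).1
      (Multiplicative.ofAdd.injective (congrArg (fun x => x.2.1) (k t ht).2.2.1))⟩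
  have kl : ∀ t < 2 * (C + 2 + 1) + 1, (pre t ++ v' t ++ suf t).length ≤ n := fun t ht => by
    have h1 := congrArg length (k t ht).1
    have h2 := (k t ht).2.2.2.2
    simp only [length_append] at h1 ⊢
    omega
  by_cases hc' : ∃ t < 2 * (C + 2 + 1) + 1, ∀ b ∈ z ++ v t, b = a
  · obtain ⟨t, ht, j⟩ := hc'
    rw [forall_mem_append] at j
    have j' : ∀ b ∈ v' t, b = a := by
      by_contra j'
      have := congrArg (fun x => x.2.2) (k t ht).2.2.1
      simp only [if_pos j.2, if_neg j'] at this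
      exact zero_ne_one this
    obtain ⟨u, d, d', e1, e2⟩ := run_split (a := a) ((k1 t ht).2.of_mul_right p)
    rw [← eq_replicate_of_mem j.1, ← eq_replicate_of_mem j'] at e1
    rw [← eq_replicate_of_mem j.1, ← eq_replicate_of_mem j.2] at e2
    have c1 := ((Cz.refl (pre t)).app hc ((Cz.refl u).app hc (cz_pw d))).app hc (Cz.refl (suf t))
    have c2 := (((Cz.refl (pre t)).app hc ((Cz.refl u).app hc (cz_pw d'))).app hc
      (Cz.refl (suf t))).app hc (cz_pw κ)
    rw [← e2, ← (k t ht).1, append_nil] at c2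
    rw [← e1] at c1
    exact ⟨t, ht, hwl ▸ pz_of hz0 c2 c1 hw (hwl ▸ kl t ht)⟩
  push Not at hc'
  have A : ∀ t ≤ C + 2 + 1, pre (2 * t + 1) =
      pre 0 ++ v 0 ++ seg (fun k => v (2 * k + 1) ++ v (2 * (k + 1))) 0 t := fun t ht => by
    induction t with
    | zero => simpa [seg] using (k 0 (by omega)).2.1
    | succ t ih =>
      rw [(k _ (by omega)).2.1, show 2 * (t + 1) = 2 * t + 1 + 1 by ring, (k _ (by omega)).2.1,
        ih (by omega), seg_succ]
      simp only [append_assoc, Nat.zero_add, show 2 * (t + 1) = 2 * t + 1 + 1 by ring]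
  have W : w = pre 0 ++ v 0 ++ seg (fun k => v (2 * k + 1) ++ v (2 * (k + 1))) 0 (C + 2 + 1) ++
      suf (2 * (C + 2 + 1)) := by
    rw [← A _ le_rfl, (k _ (by omega)).2.1]
    exact (k _ (by omega)).1
  obtain ⟨X, jX, x1, x2⟩ := reduce hc hz0 (pre 0)
  obtain ⟨X', jX', y1, y2⟩ := reduce hc hz0 (suf (2 * (C + 2 + 1)))
  have e2 : ∀ t, ∃ j j', t < C + 2 + 1 → j ≤ g ∧ (v (2 * t + 1)).length + z.length * p * (j + 1) =
      (v' (2 * t + 1)).length + z.length * p * (j' + 1) := fun t => by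
    by_cases ht : t < C + 2 + 1
    · obtain ⟨j, j', h⟩ := pad_le (Nat.mul_pos hD hp) (k1 (2 * t + 1) (by omega)).2.symm
        (k _ (by omega)).2.2.2.1 (k _ (by omega)).2.2.2.2
      exact ⟨j, j', fun _ => h⟩
    · exact ⟨0, 0, fun j => absurd j ht⟩
  choose j j' e2 using e2
  have hJ : 1 + ∑ t ∈ Finset.range (C + 2 + 1), (2 * N₀ * (t + 1) + p * (j t + 1) + 1) ≤ Jb := by
    rw [hJb, Nat.add_le_add_iff_left]
    refine (Finset.sum_le_card_nsmul _ _ (2 * N₀ * (C + 2 + 1) + p * (g + 1) + 1)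
      fun t ht => ?_).trans (by rw [Finset.card_range, smul_eq_mul])
    rw [Finset.mem_range] at ht
    have h1 := Nat.mul_le_mul_left (2 * N₀) (show t + 1 ≤ C + 2 + 1 by omega)
    have h2 := Nat.mul_le_mul_left p (Nat.add_le_add_right (e2 t ht).1 1)
    omega
  obtain ⟨ρ, hρ⟩ := Nat.exists_eq_add_of_le (hJ.trans (hκ'.trans (Nat.le_add_left κ (jX + jX'))))
  set m : ℕ → ℕ := fun t => 2 * N₀ * (t + 1) + if t = C + 2 then ρ else 0 with hm
  have blk : ∀ (u : ℕ → List α) (q : ℕ → ℕ) t, Cz L z (replicate ((i + 1) * m t) a ++ pw y₀ (m t) ++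
      (u (2 * t + 1) ++ pw z (p * (q t + 1))) ++ (z ++ v (2 * (t + 1))))
      (u (2 * t + 1) ++ v (2 * (t + 1))) (m t + p * (q t + 1) + 1) := fun u q t => by
    have := ((cz_nest hc (m t)).app hc ((Cz.refl (u (2 * t + 1))).app hc
      (cz_pw (p * (q t + 1))))).app hc (cz_one.app hc (Cz.refl (v (2 * (t + 1)))))
    simpa only [nil_append, append_nil, Nat.zero_add, Nat.add_zero] using this
  have r0 : Cz L z (z ++ v 0) (v 0) 1 := by simpa using cz_one.app hc (Cz.refl (L := L) (v 0))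
  have c1 := ((Cz.refl X).app hc (r0.app hc (cz_seg hc (blk v j) 0 (C + 2 + 1)))).app hc
    (Cz.refl X')
  have c2 := (((x2.app hc (Cz.refl (v 0))).app hc (Cz.refl
    (seg (fun k => v (2 * k + 1) ++ v (2 * (k + 1))) 0 (C + 2 + 1)))).app hc y2).app hc (cz_pw κ)
  rw [← W, append_nil, append_assoc X] at c2
  have cJ : 0 + (1 + ∑ t ∈ Finset.range (C + 2 + 1), (m (0 + t) + p * (j (0 + t) + 1) + 1)) + 0 =
      jX + 0 + 0 + jX' + κ := by
    have : ∀ t, m (0 + t) + p * (j (0 + t) + 1) + 1 =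
        (2 * N₀ * (t + 1) + p * (j t + 1) + 1) + if t = C + 2 then ρ else 0 := fun t => by
      simp only [hm, Nat.zero_add]
      omega
    simp only [this]
    rw [Finset.sum_add_distrib, Finset.sum_ite_eq', if_pos (by simp)]
    omega
  rw [cJ] at c1
  have zin : ∀ (u : List α) q, z <:+: u ++ pw z (p * (q + 1)) := fun u q => by
    obtain ⟨d, hd⟩ := Nat.exists_eq_add_of_lt (Nat.mul_pos hp (Nat.succ_pos q))
    rw [hd, pw]
    exact ⟨u, _, append_assoc _ _ _⟩
  obtain ⟨t, ht, o⟩ := move_core (μ := fun w => (μ w, act z w))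
    (fun u v => Prod.ext (hμ u v) (act_hom z u v)) (sw_ctx h x1 y1) (Nat.succ_pos i) hy
    (fun k => z ++ v (2 * k)) (fun t => v (2 * t + 1) ++ pw z (p * (j t + 1)))
    (fun t => v' (2 * t + 1) ++ pw z (p * (j' t + 1))) m N₀
    (fun k hk => hc' _ (by omega))
    (fun t ht => by
      have := (k (2 * t) (by omega)).2.2.2.1
      rw [length_append]
      omega)
    (fun t ht => by
      have h1 := (k (2 * t + 1) (by omega)).2.2.2.1
      have h2 := (k (2 * (t + 1)) (by omega)).2.2.2.1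
      have h3 := Nat.mul_le_mul_left (z.length * p) (Nat.succ_le_succ (e2 t ht).1)
      have h4 : y₀.length ≤ z.length := by rw [hzd, length_append]; omega
      simp only [length_append, pw_len, ← Nat.mul_assoc]
      simp only [Nat.succ_eq_add_one] at h3
      omega)
    (fun t _ => by
      simp only [hm, Nat.mul_succ]
      omega)
    (fun t t' h1 h2 => by
      have h3 := Nat.mul_le_mul_left (2 * N₀) (show t + 1 + 1 ≤ t' + 1 by omega)
      rw [Nat.mul_succ] at h3
      simp only [hm, if_neg (show t ≠ C + 2 by omega)]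
      omega)
    (fun t ht => by
      refine ⟨?_, Prod.ext ?_ (act_eq (zin _ _) (zin _ _))⟩
      · have := (e2 t ht).2
        simp only [length_append, pw_len, ← Nat.mul_assoc]
        omega
      · obtain ⟨q, rfl⟩ := Nat.exists_eq_add_of_lt hp
        have m : ∀ n, μ (pw z ((0 + q + 1) * (n + 1))) = μ z ^ (0 + q + 1) := fun n => by
          rw [← hp' n, show (0 + q + 1) * (n + 1) = (0 + q + 1) * n + q + 1 by ring, mu_pw hμ]
        simp only [hμ _ _, m, (k1 (2 * t + 1) (by omega)).1])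
    (c1.1.symm.mem (c2.1.mem hw))
  refine ⟨2 * t + 1, by omega, ?_⟩
  have c3 := ((Cz.refl X).app hc (((r0.app hc (cz_seg hc (blk v j) 0 t)).app hc (blk v' j' t)).app
    hc (cz_seg hc (blk v j) (t + 1) (C + 2 + 1 - t - 1)))).app hc (Cz.refl X')
  have c4 := (x2.app hc (Cz.refl (v 0 ++ seg (fun k => v (2 * k + 1) ++ v (2 * (k + 1))) 0 t ++
    (v' (2 * t + 1) ++ v (2 * (t + 1))) ++
    seg (fun k => v (2 * k + 1) ++ v (2 * (k + 1))) (t + 1) (C + 2 + 1 - t - 1)))).app hc y2
  have S := (k (2 * t + 1) (by omega)).1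
  rw [W, A t ht.le, seg_split _ ht] at S
  simp only [append_assoc, append_cancel_left_eq] at S
  have e5 : pre (2 * t + 1) ++ v' (2 * t + 1) ++ suf (2 * t + 1) = pre 0 ++
      (v 0 ++ seg (fun k => v (2 * k + 1) ++ v (2 * (k + 1))) 0 t ++
      (v' (2 * t + 1) ++ v (2 * (t + 1))) ++
      seg (fun k => v (2 * k + 1) ++ v (2 * (k + 1))) (t + 1) (C + 2 + 1 - t - 1)) ++
      suf (2 * (C + 2 + 1)) := by
    rw [A t ht.le, ← S]
    simp only [append_assoc]
  rw [← e5] at c4
  have e6 := c1.2.trans (c2.2.symm.trans hwl)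
  rw [seg_split _ ht] at e6
  have e7 := (e2 t ht).2
  have := pz_of hz0 c3 c4 o (by
    refine (kl (2 * t + 1) (by omega)).trans (le_of_eq ?_)
    simp only [length_append, pw_len, ← Nat.mul_assoc] at e6 ⊢
    omega)
  refine (?_ : _ = n) ▸ this
  simp only [length_append, pw_len, ← Nat.mul_assoc] at e6 ⊢
  omega

end Pool.Agent.Work.MP_cb6225_lc.Z
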