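import Pool.Agent.Work.MP_cb6225_lc.Green

/-! Marked words with prescribed exponents, and contexts free of a factor. -/

namespace Pool.Agent.Work.MP_cb6225_lc.Z

open List Pool.Agent.Work.MP_cb6225_lc

variable {α : Type} {L : Language α}

theorem move_core {M : Type} [Monoid M] {μ : List α → M} (hμ : Hom μ) {C : ℕ} (h : SW L μ C)
    {a : α} {i : ℕ} (hi : 0 < i) {y₀ : List α} (hy : y₀ = [] ∨ ∃ b y', b ≠ a ∧ y₀ = b :: y')
    (r T T' : ℕ → List α) (m : ℕ → ℕ) (N : ℕ) (hr : ∀ k ≤ C + 1, ∃ b ∈ r k, b ≠ a)
    (hB : ∀ k ≤ C + 1, (r k).length < N)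
    (hB' : ∀ k < C + 1, y₀.length + (T k).length + (r (k + 1)).length < N)
    (hm0 : ∀ k < C + 1, N ≤ m k) (hm : ∀ k k', k < k' → k' < C + 1 → m k + 2 * N ≤ m k')
    (hT : ∀ k < C + 1, (T' k).length = (T k).length ∧ μ (T' k) = μ (T k))
    (hw : r 0 ++ seg (fun k => replicate (i * m k) a ++ pw y₀ (m k) ++ T k ++ r (k + 1)) 0 (C + 1)
      ∈ L) :
    ∃ t < C + 1, r 0 ++
      seg (fun k => replicate (i * m k) a ++ pw y₀ (m k) ++ T k ++ r (k + 1)) 0 t ++
      (replicate (i * m t) a ++ pw y₀ (m t) ++ T' t ++ r (t + 1)) ++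
      seg (fun k => replicate (i * m k) a ++ pw y₀ (m k) ++ T k ++ r (k + 1)) (t + 1)
        (C + 1 - t - 1) ∈ L := by
  have e1 : ∀ k, ∃ l' b e, k ≤ C + 1 → b ≠ a ∧ r k = l' ++ [b] ++ replicate e a := fun k => by
    by_cases hk : k ≤ C + 1
    · obtain ⟨l', b, e, j⟩ := last_ne (hr k hk)
      exact ⟨l', b, e, fun _ => j⟩
    · exact ⟨[], a, 0, fun j => absurd j hk⟩
  choose l β e e1 using e1
  have hl : ∀ k ≤ C + 1, (l k).length + 1 + e k = (r k).length := fun k hk => by
    rw [(e1 k hk).2]; simp; omega
  have e3 : ∀ k, ∃ s Y, k < C + 1 → s < N ∧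
      pw y₀ (m k) ++ (T k ++ l (k + 1)) ++ [β (k + 1)] =
        replicate s a ++ Y ∧ Good a N Y := fun k => by
    by_cases hk : k < C + 1
    · obtain ⟨s, Y, h⟩ := good_tail (N := N) (T := pw y₀ (m k) ++
        (T k ++ l (k + 1))) (e1 (k + 1) hk).1 (by
          rw [append_assoc]
          refine noRun_pw hy _ _ [] (by simp) ?_
          have := hB' k hk
          have := hl (k + 1) hk
          simp only [length_append, length_singleton]
          omega)
      exact ⟨s, Y, fun _ => h⟩
    · exact ⟨0, [], fun j => absurd j hk⟩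
  choose s Y e3 using e3
  set D : ℕ → List α := fun k => replicate (i * m k) a ++ pw y₀ (m k) ++ T k with hD
  set D' : ℕ → List α := fun k => replicate (i * m k) a ++ pw y₀ (m k) ++ T' k with hD'
  have hE : ∀ k < C + 1, replicate (e k + i * m k + s k) a ++ Y k =
      replicate (e k) a ++ (D k ++ l (k + 1) ++ [β (k + 1)]) := fun k hk => by
    rw [replicate_add, replicate_add, append_assoc, ← (e3 k hk).2.1]
    simp only [hD, append_assoc]
  have tele : ∀ i' n, i' + n ≤ C + 1 → replicate (e i') a ++ seg (fun k => D k ++ r (k + 1)) i' n =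
      seg (fun k => replicate (e k + i * m k + s k) a ++ Y k) i' n ++
        replicate (e (i' + n)) a := fun i' n hn => by
    rw [seg_congr (w := fun k => (D k ++ l (k + 1) ++ [β (k + 1)]) ++ replicate (e (k + 1)) a)
      fun k hk => by rw [(e1 (k + 1) (by omega)).2]; simp only [append_assoc],
      seg_tele fun k => replicate (e k) a, seg_congr fun k hk => hE k (by omega)]
  have he : ∀ k ≤ C + 1, e k < N := fun k hk => by
    have := hB k hk
    have := hl k hk
    omega
  have lt : ∀ k k', k < k' → k' < C + 1 → e k + i * m k + s k <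
      e k' + i * m k' + s k' := fun k k' h1 h2 => by
    have := he k (by omega)
    have := (e3 k (by omega)).1
    have : i * m k + 2 * N ≤ i * m k' := by
      have h3 := Nat.mul_le_mul_left i (hm k k' h1 h2)
      have h4 := Nat.le_mul_of_pos_left (2 * N) hi
      rw [Nat.mul_add] at h3
      omega
    omega
  obtain ⟨t, ht, k⟩ := swap_marked (N := N) hμ h (l 0) (replicate (e (C + 1)) a) (β 0)
    (e1 0 (by omega)).1 (fun k => e k + i * m k + s k) Y
    (fun k => replicate (e k) a ++ (D' k ++ l (k + 1) ++ [β (k + 1)]))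
    (noRun_short (by
      have := hB 0 (by omega)
      have := hl 0 (by omega)
      omega))
    (noRun_short (by
      have := he (C + 1) le_rfl
      rwa [length_replicate]))
    (fun k hk => (e3 k hk).2.2)
    (fun k hk => by
      have := hm0 k hk
      have := Nat.le_mul_of_pos_left (m k) hi
      omega)
    (fun k hk k' hk' h => by
      rcases lt_trichotomy k k' with j | j | j
      · exact absurd h (lt k k' j hk').ne
      · exact j
      · exact absurd h (lt k' k j hk).ne')
    (fun k hk => by
      rw [hE k hk]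
      constructor
      · simp only [hD, hD', length_append, (hT k hk).1]
      · simp only [hD, hD', hμ _ _, (hT k hk).2])
    (by
      have := hw
      rw [(e1 0 (by omega)).2, append_assoc _ (replicate _ _), tele 0 (C + 1) (by omega)] at this
      simpa only [append_assoc, Nat.zero_add] using this)
  refine ⟨t, ht, ?_⟩
  have t1 := tele 0 t (by omega)
  have t2 := tele (t + 1) (C + 1 - t - 1) (by omega)
  rw [show t + 1 + (C + 1 - t - 1) = C + 1 by omega] at t2
  rw [Nat.zero_add] at t1
  show r 0 ++ seg (fun k => D k ++ r (k + 1)) 0 t ++ (D' t ++ r (t + 1)) ++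
    seg (fun k => D k ++ r (k + 1)) (t + 1) (C + 1 - t - 1) ∈ L
  rw [(e1 0 (by omega)).2, (e1 (t + 1) ht).2, append_assoc _ (replicate _ _), t1]
  simp only [append_assoc] at k ⊢
  rw [t2]
  simpa only [append_assoc] using k

open Classical in
/-- the action of words on the words free of the factor `z` -/
noncomputable def act (z w : List α) : Function.End (Option (List α)) :=
  fun s => s.bind fun x => if z <:+: w ++ x then none else some (w ++ x)

theorem act_hom (z : List α) : Hom (act z) := fun u v => by
  funext s
  rcases s with _ | x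
  · rfl
  · show act z (u ++ v) (some x) = act z u (act z v (some x))
    simp only [act, Option.bind_some]
    by_cases h : z <:+: v ++ x
    · rw [if_pos h, if_pos (by rw [append_assoc]; exact h.trans (suffix_append _ _).isInfix)]
      rfl
    · rw [if_neg h, Option.bind_some, append_assoc]

theorem act_eq {z u v : List α} (hu : z <:+: u) (hv : z <:+: v) : act z u = act z v := by
  funext s
  rcases s with _ | x
  · rfl
  · simp only [act, Option.bind_some]
    rw [if_pos (hu.trans (prefix_append _ _).isInfix), if_pos (hv.trans (prefix_append _ _).isInfix)]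

theorem act_inj {z u v : List α} (h : act z v = act z u) (hu : ¬ z <:+: u) : v = u := by
  have : act z v (some []) = act z u (some []) := congrFun h (some [])
  unfold act at this
  rw [Option.bind_some, Option.bind_some, append_nil, append_nil, if_neg hu] at this
  by_cases j : z <:+: v
  · rw [if_pos j] at this
    exact absurd this (by simp)
  · rw [if_neg j] at this
    exact Option.some.inj this

theorem rep_self {u : List α} (hu : u ≠ []) (s : List α) : rep u u s = s := by
  induction s using rep_ind hu with
  | h0 => rw [rep_nil]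
  | h1 s ih => rw [rep_pos _ hu, ih]
  | h2 c s h ih => rw [rep_neg _ h, ih]

theorem sw_ctx {M : Type} [Monoid M] {μ : List α → M} {C : ℕ} (h : SW L μ C) {z X X' : List α}
    (hX : ¬ z <:+: X) (hX' : ¬ z <:+: X') :
    SW {m | X ++ m ++ X' ∈ L} (fun w => (μ w, act z w)) (C + 2) := fun w hw => by
  obtain ⟨cuts, c1, c2⟩ := h _ hw
  refine ⟨(X, w ++ X') :: (w, X') :: cuts, by simpa using c1, fun u u' a b d e => ?_⟩
  have hu : u ≠ [] := by rintro rfl; simp at a
  by_cases j : z <:+: u
  · have := c2 u u' a b (congrArg Prod.fst d) fun k hk => e k (by simp [hk])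
    rw [append_assoc, rep_append _ hu (e (X, w ++ X') (by simp)),
      rep_append _ hu (e (w, X') (by simp)), rep_noocc _ fun i => hX (j.trans i),
      rep_noocc (s := X') _ fun i => hX' (j.trans i), ← append_assoc] at this
    exact this
  · rw [act_inj (congrArg Prod.snd d) j, rep_self hu]
    exact hw

end Pool.Agent.Work.MP_cb6225_lc.Z
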