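import Pool.Agent.Work.MP_cb6225_lc.Defs

/-! Classes of length conditions and quotients by powers of a word. -/

namespace Pool.Agent.Work.MP_cb6225_lc.Z

/-- the class `Λ` contains the conditions `|x| = |y|` and is closed under renaming every variable
`x` to `x + 1` -/
def LenClass (Λ : Set (Set (ℕ → ℕ))) : Prop :=
  (∀ x y : ℕ, {l : ℕ → ℕ | l x = l y} ∈ Λ) ∧
    ∀ P ∈ Λ, {l : ℕ → ℕ | (fun x => l (x + 1)) ∈ P} ∈ Λ

/-- the words `w` with `w z^N` in `L` -/
def Quo {α : Type} (L : Language α) (z : List α) (N : ℕ) : Language α :=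
  {w | w ++ (List.replicate N z).flatten ∈ L}

end Pool.Agent.Work.MP_cb6225_lc.Z
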