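import Pool.Agent.Work.MP_cb6225_lc.Z.Cent
import Pool.Agent.Work.MP_cb6225_lc.Z.ZDefs

/-! Closure properties of the expressible languages and the final theorem. -/

namespace Pool.Agent.Work.MP_cb6225_lc.Z

open List Pool.Agent.Work.MP_cb6225_lc

variable {α : Type} {Λ : Set (Set (ℕ → ℕ))}

theorem val_shift (h : ℕ → List α) (U : List (ℕ ⊕ α)) :
    val h (U.map (Sum.map (· + 1) id)) = val (fun x => h (x + 1)) U := by
  induction U with
  | nil => rfl
  | cons s U ih =>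
    simp only [val, map_cons, flatMap_cons] at ih ⊢
    rw [ih]
    rcases s with s | s <;> rfl

theorem val_const (h : ℕ → List α) (Z : List α) : val h (Z.map Sum.inr) = Z := by
  induction Z with
  | nil => rfl
  | cons s U ih =>
    simp only [val, map_cons, flatMap_cons] at ih ⊢
    rw [ih]
    rfl

theorem shift (hΛ : LenClass Λ) (f : Formula α Λ) :
    ∃ f' : Formula α Λ, ∀ h, f'.Sat h ↔ f.Sat fun x => h (x + 1) := by
  induction f with
  | eqn U V =>
    exact ⟨.eqn (U.map (Sum.map (· + 1) id)) (V.map (Sum.map (· + 1) id)), fun h => by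
      simp only [Formula.Sat, val_shift]⟩
  | reg x R hR => exact ⟨.reg (x + 1) R hR, fun _ => Iff.rfl⟩
  | len P hP => exact ⟨.len _ (hΛ.2 P hP), fun _ => Iff.rfl⟩
  | neg f ih =>
    obtain ⟨f', k⟩ := ih
    exact ⟨.neg f', fun h => not_congr (k h)⟩
  | conj f g ih ih' =>
    obtain ⟨f', k⟩ := ih
    obtain ⟨g', k'⟩ := ih'
    exact ⟨.conj f' g', fun h => and_congr (k h) (k' h)⟩
  | disj f g ih ih' =>
    obtain ⟨f', k⟩ := ih
    obtain ⟨g', k'⟩ := ih'
    exact ⟨.disj f' g', fun h => or_congr (k h) (k' h)⟩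

theorem link (hΛ : LenClass Λ) {K : Language α} (hK : Expressible Λ K) {R : Language α}
    (hR : R.IsRegular) (φ : ℕ → Formula α Λ) (Q : List α → List α → Prop)
    (hφ : ∀ x h, (φ x).Sat h ↔ Q (h 0) (h (x + 1))) :
    ∃ f : Formula α Λ, ∀ w, (w ∈ R ∧ ∃ u ∈ K, Q w u) ↔ ∃ h, f.Sat h ∧ h 0 = w := by
  obtain ⟨f, x, k⟩ := hK
  obtain ⟨f', k'⟩ := shift hΛ f
  refine ⟨.conj (.reg 0 R hR) (.conj f' (φ x)), fun w => ⟨?_, ?_⟩⟩
  · rintro ⟨a, u, b, c⟩
    obtain ⟨h, h1, rfl⟩ := (k u).1 b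
    refine ⟨fun y => Nat.casesOn (motive := fun _ => List α) y w h, ⟨?_, ?_, ?_⟩, rfl⟩
    · exact a
    · exact (k' _).2 h1
    · exact (hφ _ _).2 c
  · rintro ⟨h, ⟨a, b, c⟩, rfl⟩
    exact ⟨a, h (x + 1), (k _).2 ⟨_, (k' _).1 b, rfl⟩, (hφ _ _).1 c⟩

theorem union_fin {n : ℕ} (S : Fin n → List α → Prop)
    (hS : ∀ i, ∃ f : Formula α Λ, ∀ w, S i w ↔ ∃ h, f.Sat h ∧ h 0 = w) :
    ∃ f : Formula α Λ, ∀ w, (∃ i, S i w) ↔ ∃ h, f.Sat h ∧ h 0 = w := by
  induction n with
  | zero =>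
    exact ⟨.neg (.eqn [] []), fun w => ⟨fun ⟨i, _⟩ => i.elim0, fun ⟨_, k, _⟩ => absurd rfl k⟩⟩
  | succ n ih =>
    obtain ⟨f, k⟩ := hS 0
    obtain ⟨g, k'⟩ := ih (fun i => S i.succ) fun i => hS _
    refine ⟨.disj f g, fun w => ?_⟩
    rw [Fin.exists_fin_succ, k, k']
    constructor
    · rintro (⟨h, a, b⟩ | ⟨h, a, b⟩)
      · exact ⟨h, Or.inl a, b⟩
      · exact ⟨h, Or.inr a, b⟩
    · rintro ⟨h, a | a, b⟩
      · exact Or.inl ⟨h, a, b⟩
      · exact Or.inr ⟨h, a, b⟩

theorem flat_pw (z : List α) (N : ℕ) : (replicate N z).flatten = pw z N := by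
  induction N with
  | zero => rfl
  | succ N ih => rw [replicate_succ, flatten_cons, ih, pw]

theorem central_main [Finite α] (hΛ : LenClass Λ) (L : Language α) (z : List α) (hz : z ≠ [])
    (hc : ∀ x u y : List α, x ++ z ++ u ++ y ∈ L ↔ x ++ u ++ z ++ y ∈ L) :
    (∃ N, Expressible Λ (Quo L z N)) ↔
      ∃ (N n : ℕ) (R K : Fin n → Language α), (∀ i, (R i).IsRegular ∧ Expressible Λ (K i)) ∧
        ∀ w, w ∈ Quo L z N ↔ ∃ i, w ∈ R i ∧ ∃ u ∈ K i, u.length = w.length := by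
  constructor
  · rintro ⟨N, h⟩
    have hc' : ∀ u, Syn (Quo L z N) (z ++ u) (u ++ z) := fun u x y => by
      have := hc x u (y ++ (replicate N z).flatten)
      simp only [append_assoc] at this
      show _ ++ _ ∈ L ↔ _ ++ _ ∈ L
      simpa only [append_assoc] using this
    obtain ⟨M, _, _, μ, c, hμ, k⟩ := gm_of_central h hz hc'
    obtain ⟨l, N₁, k⟩ := gfin hμ k
    choose ρ r1 r2 using k
    set st : List α → List α := fun w => w.foldl (fun s a => ρ (s ++ [a])) [] with hst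
    have s1 : ∀ w, (st w).length ≤ l ∧ Red (PZ (Quo L z N) z) N₁ w (st w) := fun w => by
      induction w using reverseRecOn with
      | nil => exact ⟨Nat.zero_le _, Red.refl _ _⟩
      | append_singleton w a ih =>
        have e : st (w ++ [a]) = ρ (st w ++ [a]) := by simp only [hst, foldl_append, foldl_cons,
          foldl_nil]
        have := ih.2.ctx [] [a]
        rw [nil_append, nil_append] at this
        exact e ▸ ⟨r1 _, this.trans (r2 _)⟩
    have hreg : ∀ s, Language.IsRegular {w | st w = s} := fun s => by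
      refine Language.IsRegular.of_finite_range_leftQuotient (((finite_length_le α l).image
        fun q => ({y | y.foldl (fun s a => ρ (s ++ [a])) q = s} : Language α)).subset ?_)
      rintro _ ⟨w, rfl⟩
      refine ⟨st w, (s1 w).1, Set.ext fun y => ?_⟩
      show _ = s ↔ st (w ++ y) = s
      simp only [hst, foldl_append]
    have hD := length_pos_of_ne_nil hz
    have q1 : ∀ w, w ∈ Quo L z (N₁ + N) ↔ w ++ pw z N₁ ∈ Quo L z N := fun w => by
      show _ ++ _ ∈ L ↔ _ ++ _ ∈ L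
      rw [flat_pw, flat_pw, pw_add, append_assoc]
    have q2 : ∀ w, w ++ pw z N₁ ∈ Quo L z N ↔ PZ (Quo L z N) z w (w.length + z.length * N₁) :=
      fun w => ⟨fun j => ⟨N₁, rfl, j⟩, fun ⟨k, a, b⟩ =>
        Nat.eq_of_mul_eq_mul_left hD (Nat.add_left_cancel a) ▸ b⟩
    have q3 : ∀ w, w ++ pw z N₁ ∈ Quo L z N ↔
        PZ (Quo L z N) z (st w) (w.length + z.length * N₁) := fun w => by
      have h1 := Nat.le_mul_of_pos_left N₁ hD
      have h2 := (s1 w).2.1
      have h3 := (s1 w).2.2.1 [] [] (w.length + z.length * N₁) (by simp; omega) (by simp; omega)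
      have h4 := (s1 w).2.2.2 [] [] (w.length + z.length * N₁) (by simp; omega) (by simp; omega)
      simp only [nil_append, append_nil] at h3 h4
      exact (q2 w).trans ⟨h3, h4⟩
    obtain ⟨n, e, -, he⟩ := (finite_length_le α l).fin_param
    refine ⟨N₁ + N, n, fun i => {w | st w = e i},
      fun i => {w | st w = e i ∧ w ++ pw z N₁ ∈ Quo L z N}, fun i => ⟨hreg _, ?_⟩, fun w => ?_⟩
    · obtain ⟨f, k⟩ := link hΛ h (hreg (e i))
        (fun x => .eqn [Sum.inl (x + 1)] (Sum.inl 0 :: (pw z N₁).map Sum.inr))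
        (fun w u => u = w ++ pw z N₁) fun x h => by
          have := val_const h (pw z N₁)
          simp only [Formula.Sat, val, flatMap_cons, flatMap_nil, Sum.elim_inl, append_nil] at this ⊢
          rw [this]
      exact ⟨f, 0, fun w => Iff.trans ⟨fun j => ⟨j.1, _, j.2, rfl⟩, fun ⟨a, _, b, c⟩ => ⟨a, c ▸ b⟩⟩
        (k w)⟩
    · rw [q1]
      constructor
      · intro j
        obtain ⟨i, hi⟩ : st w ∈ Set.range e := he ▸ (s1 w).1
        exact ⟨i, hi.symm, w, ⟨hi.symm, j⟩, rfl⟩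
      · rintro ⟨i, a, u, ⟨b, c⟩, d⟩
        have a' : st w = e i := a
        rw [q3, b, d] at c
        rw [q3, a']
        exact c
  · rintro ⟨N, n, R, K, h, k⟩
    obtain ⟨f, j⟩ := union_fin (Λ := Λ) (fun i w => w ∈ R i ∧ ∃ u ∈ K i, u.length = w.length)
      fun i => link hΛ (h i).2 (h i).1 (fun x => .len _ (hΛ.1 (x + 1) 0))
        (fun w u => u.length = w.length) fun _ _ => Iff.rfl
    exact ⟨N, f, 0, fun w => (k w).trans (j w)⟩

end Pool.Agent.Work.MP_cb6225_lc.Z
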